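import Pool.Agent.L7h11.GG.Main

/-!
# The pole of `L₂(X × Y, s)` at `s = 2` when `H¹(Y)` is induced from a large extension

`X` and `Y` are smooth projective varieties over a number field `K`.  By Künneth
`H²(X × Y) = H²(X) + H²(Y) + H¹(X) ⊗ H¹(Y)`, and Tate's conjecture predicts that the order of the pole of
`L₂(X × Y, s)` at `s = 2` is the sum of the orders for `X` and for `Y` and of the number of the common
constituents of `H¹(X)` and `H¹(Y)`.

The starting library has this, if `H¹(Y)` is of CM type (a sum of representations of the Weil group of `K`),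
for all `Y` outside of a finite set of exceptional constituents, which depends on `X`
(`Pool.Agent.Results.MP_058a58_ag.ProductsOfCMType`).  Here there is **no exceptional set** when the
constituents of `H¹(Y)` are induced from large extensions `F` of `K`, or more generally have trace zero at
the primes of `K` which have no prime of degree one of `F` above them: the number of the exceptions is
divided by the number of the automorphisms of `F / K`.

Example: `A` is an abelian variety over `K` of dimension `g`, whose endomorphisms over the algebraic closure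
form an order of a CM field of degree `2g`, all of them defined over `F` and not over a smaller field,
`m = [F : K]`.  Then `F / K` is Galois, `H¹(A)` is the sum of `2g / m` different representations which are
induced from Hecke characters of `F`, and `σ = H¹(A)(1/2)` has `⟨σ, σ⟩ = 2g / m` and is supported on `F`.
For all `X` with `b₁(X)² · 2g < m²` the order of the pole of `L₂(X × A, s)` is the sum of the orders for `X`
and for `A`, if these orders exist; and without any assumption the sizes of the L-functions differ by at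
most `b₁(X) (2g)^{1/2} / m`.  For `K = ℚ` and `m = 2g` this holds for `b₁(X)² < 2g`.

Proof.  The automorphisms of `F / K` act freely on the primes of degree one of `F` above a prime of `K`,
for almost all primes; so the primes with a prime of degree one of `F` above them have density at most
`1 / m` (upper density, counted with the number of the primes above them), and Cauchy's inequality for
the correlation of the trace on the complementary part of `H¹(X)`, bounded by `N'`, with the trace of `σ`,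
of mean square `⟨σ, σ⟩`, gives a further factor `1 / m`.
The definitions are in `Pool.Agent.L7h11.GG.Defs`, `Pool.Agent.N172.HS.Defs`, `Rep`, `Pa`, `Pr`,
`Pool.Agent.W353.EF.Defs` and `Pool.Agent.Y149.Ord`.
-/

set_option autoImplicit false

namespace Pool.Agent.Results.MP_1f4fc7_nt.LargeInducedRepresentations

open NumberField Complex Filter Topology IsDedekindDomain Polynomial
open Pool.Agent.N172.HS
open Pool.Agent.W353.EF (IsFrobenius IsEulerSystem LFun size)
open Pool.Agent.Y149.Ord (HasOrder)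
open Pool.Agent.L7h11.GG (SupportedOn ind IsH1 IsL2)

/-- Let `H^a(X)` be the sum of a part `θ` and of a complementary part of dimension `N'`, and let `σ k` be
pairwise inequivalent irreducible representations of the Weil group of `K` which are supported on `F`.
The sum over `k` of the squares of the differences between the size of `L(H^a(X) ⊗ σ_k)` at the edge and
the expected order `⟨σ_k, θ⟩` of the pole is at most `N'² / #Aut(F/K)`; there are at most
`N'² / #Aut(F/K)` indices `k` for which the order of the pole exists and is not the expected one. -/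
def TwistBound {K : Type} [Field K] [NumberField K] (X : Variety K) : Prop :=
  ∀ a ≤ 2 * X.dim, ∀ (θ : WRep K) (N' : ℕ), IsPart X a θ N' →
    ∀ (F : Type) [Field F] [NumberField F] [Algebra K F] (s : ℕ) (σ : Fin s → WRep K),
    (∀ k, (σ k).IsIrr ∧ SupportedOn (σ k) F) → (∀ k l, k ≠ l → (σ k).inner (σ l) = 0) →
    ∀ B : Fin s → HeightOneSpectrum (𝓞 K) → ℂ[X], (∀ k, IsTensor X a (σ k) (B k)) →
    (∀ η : ℝ, 0 < η → ∀ᶠ ε : ℝ in 𝓝[>] 0,
      (∀ k, LFun (B k) ((a : ℂ) / 2 + 1 + ε) ≠ 0) ∧
      ∑ k, (size a (B k) ε - (σ k).inner θ) ^ 2 ≤ (N' : ℝ) ^ 2 / Nat.card (F ≃ₐ[K] F) + η) ∧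
    ∀ r : Fin s → ℤ, (∀ k, HasOrder a (B k) (-r k)) →
      ({k | r k ≠ (σ k).inner θ}.ncard : ℝ) ≤ (N' : ℝ) ^ 2 / Nat.card (F ≃ₐ[K] F)

/-- Let `H¹(X)` be the sum of a part `θ` and of a complementary part of dimension `N'`, and `H¹(Y)` the
sum of (virtual) representations `σ j` which are supported on extensions `F j` of `K`.  The difference
between the size of `L₂(X × Y)` at `s = 2` and the sum of the sizes of `L₂(X)` and `L₂(Y)` and of
`∑ ⟨σ_j, θ⟩` is at most `N' ∑ (⟨σ_j, σ_j⟩ / #Aut(F_j/K))^{1/2}`; the same holds for the orders of the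
poles, if they exist, and if this bound is smaller than one, then the order of the pole is the expected
one. -/
def ProductBound {K : Type} [Field K] [NumberField K] (X : Variety K) : Prop :=
  ∀ (θ : WRep K) (N' : ℕ), IsPart X 1 θ N' → ∀ Y : Variety K, 1 ≤ Y.dim →
    ∀ (s : ℕ) (σ : Fin s → WRep K), IsH1 Y σ →
    ∀ (F : Fin s → Type) [∀ j, Field (F j)] [∀ j, NumberField (F j)] [∀ j, Algebra K (F j)],
    (∀ j, SupportedOn (σ j) (F j)) → ∀ B A A' : HeightOneSpectrum (𝓞 K) → ℂ[X], IsL2 X Y B →
    IsEulerSystem X.eqs X.dim 2 (X.betti 2) A → IsEulerSystem Y.eqs Y.dim 2 (Y.betti 2) A' →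
    (∀ η : ℝ, 0 < η → ∀ᶠ ε : ℝ in 𝓝[>] 0, LFun B (((2 : ℕ) : ℂ) / 2 + 1 + ε) ≠ 0 ∧
      |size 2 B ε - size 2 A ε - size 2 A' ε - ∑ j, ((σ j).inner θ : ℝ)| ≤
        N' * ∑ j, Real.sqrt (((σ j).inner (σ j) : ℝ) / Nat.card (F j ≃ₐ[K] F j)) + η) ∧
    ∀ r r₀ r₁ : ℤ, HasOrder 2 B (-r) → HasOrder 2 A (-r₀) → HasOrder 2 A' (-r₁) →
      |(r : ℝ) - r₀ - r₁ - ∑ j, ((σ j).inner θ : ℝ)| ≤
        N' * ∑ j, Real.sqrt (((σ j).inner (σ j) : ℝ) / Nat.card (F j ≃ₐ[K] F j)) ∧
      (N' * ∑ j, Real.sqrt (((σ j).inner (σ j) : ℝ) / Nat.card (F j ≃ₐ[K] F j)) < 1 →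
        r = r₀ + r₁ + ∑ j, (σ j).inner θ)

/-- Let `Y k` be varieties such that the representations `σ k = H¹(Y k)(1/2)` of the Weil group of `K` are
supported on the same extension `F`, pairwise orthogonal, and `⟨σ_k, σ_k⟩ ≤ G`.  The sum over `k` of the
squares of the differences between the size of `L₂(X × Y_k)` and the sum of the sizes of `L₂(X)` and
`L₂(Y_k)` and of `⟨σ_k, θ⟩` is at most `N'² G / #Aut(F/K)`, and if the orders of the poles exist, then there
are at most `N'² G / #Aut(F/K)` indices `k` for which the order is not the expected one. -/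
def FamilyBound {K : Type} [Field K] [NumberField K] (X : Variety K) : Prop :=
  ∀ (θ : WRep K) (N' : ℕ), IsPart X 1 θ N' →
    ∀ (F : Type) [Field F] [NumberField F] [Algebra K F] (s : ℕ) (Y : Fin s → Variety K)
    (σ : Fin s → WRep K) (G : ℝ), (∀ k, 1 ≤ (Y k).dim ∧ IsH1 (Y k) (fun _ : Fin 1 => σ k) ∧
      SupportedOn (σ k) F ∧ ((σ k).inner (σ k) : ℝ) ≤ G) →
    (∀ k l, k ≠ l → (σ k).inner (σ l) = 0) → 0 ≤ G →
    ∀ B A A' : Fin s → HeightOneSpectrum (𝓞 K) → ℂ[X], (∀ k, IsL2 X (Y k) (B k) ∧
      IsEulerSystem X.eqs X.dim 2 (X.betti 2) (A k) ∧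
      IsEulerSystem (Y k).eqs (Y k).dim 2 ((Y k).betti 2) (A' k)) →
    (∀ η : ℝ, 0 < η → ∀ᶠ ε : ℝ in 𝓝[>] 0,
      ∑ k, (size 2 (B k) ε - size 2 (A k) ε - size 2 (A' k) ε - (σ k).inner θ) ^ 2 ≤
        (N' : ℝ) ^ 2 * G / Nat.card (F ≃ₐ[K] F) + η) ∧
    ∀ r r₀ r₁ : Fin s → ℤ, (∀ k, HasOrder 2 (B k) (-r k)) → (∀ k, HasOrder 2 (A k) (-r₀ k)) →
      (∀ k, HasOrder 2 (A' k) (-r₁ k)) →
      ({k | r k ≠ r₀ k + r₁ k + (σ k).inner θ}.ncard : ℝ) ≤
        (N' : ℝ) ^ 2 * G / Nat.card (F ≃ₐ[K] F)

/-- **Representations induced from large extensions have no exceptions.**  The three bounds for all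
varieties `X` of dimension at least one over a number field `K`, and the induced representations `Ind χ`,
`χ` a Hecke character of `F`, are supported on `F`. -/
theorem result (K : Type) [Field K] [NumberField K] (X : Variety K) (hX : 1 ≤ X.dim) :
    TwistBound X ∧ ProductBound X ∧ FamilyBound X ∧
    ∀ (F : Type) [Field F] [NumberField F] [Algebra K F] (𝔣 : Ideal (𝓞 F)) (k : (F →+* ℂ) → ℤ)
      (t : (F →+* ℂ) → ℝ) (χ : Ideal (𝓞 F) →*₀ ℂ) (h : IsHecke 𝔣 k t χ),
      SupportedOn (ind K h) F := by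
  refine ⟨?_, ?_, ?_, ?_⟩
  · intro a ha θ N' hθ F _ _ _ s σ hσ ho B hB
    refine ⟨fun η hη => ?_, fun r hr =>
      Pool.Agent.L7h11.GG.twist_order ha hθ hσ ho hB hr⟩
    have h1 : ∀ᶠ ε : ℝ in 𝓝[>] 0, ∀ k, LFun (B k) ((a : ℂ) / 2 + 1 + ε) ≠ 0 :=
      Filter.eventually_all.2 fun k => (tensor_size ha (hB k)).1
    exact h1.and (Pool.Agent.L7h11.GG.twist_size ha hθ hσ ho hB hη)
  · intro θ N' hθ Y hY s σ hσ F _ _ _ hF B A A' hB hA hA'
    refine ⟨fun η hη => ?_, fun r r₀ r₁ hr hr₀ hr₁ => ⟨?_, fun hlt => ?_⟩⟩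
    · exact (Pool.Agent.L7h11.GG.l2_size hX hY hB).1.and
        (Pool.Agent.L7h11.GG.prod_size hX hθ hY hσ hF hB hA hA' hη)
    · exact Pool.Agent.L7h11.GG.prod_order hX hθ hY hσ hF hB hA hA' hr hr₀ hr₁
    · exact Pool.Agent.L7h11.GG.prod_order_eq hX hθ hY hσ hF hB hA hA' hr hr₀ hr₁ hlt
  · intro θ N' hθ F _ _ _ s Y σ G hY ho hG B A A' hB
    refine ⟨fun η hη => ?_, fun r r₀ r₁ hr hr₀ hr₁ => ?_⟩
    · exact Pool.Agent.L7h11.GG.family_size hX hθ (fun k => (hY k).1) (fun k => (hY k).2.1)
        (fun k => (hY k).2.2.1) ho hG (fun k => (hY k).2.2.2) (fun k => (hB k).1)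
        (fun k => (hB k).2.1) (fun k => (hB k).2.2) hη
    · exact Pool.Agent.L7h11.GG.family_order hX hθ (fun k => (hY k).1) (fun k => (hY k).2.1)
        (fun k => (hY k).2.2.1) ho hG (fun k => (hY k).2.2.2) (fun k => (hB k).1)
        (fun k => (hB k).2.1) (fun k => (hB k).2.2) hr hr₀ hr₁
  · intro F _ _ _ 𝔣 k t χ h
    exact Pool.Agent.L7h11.GG.ind_supported h

end Pool.Agent.Results.MP_1f4fc7_nt.LargeInducedRepresentations
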