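import Pool.Agent.L7h11.JS.Thm

/-!
# The pole of `L₂(Y × C, s)` at `s = 2` for the superelliptic curves `C : d y² = x ^ ℓ + 1`

`Y` is a smooth projective variety over a number field `K`, `ℓ` an odd prime, `d` a nonzero integer of
`K`, `C` the smooth projective curve `d y² = x ^ ℓ + 1` of genus `(ℓ - 1) / 2` and
`m = [K(ζ_ℓ) : K]`.  By Künneth `H²(Y × C) = H²(Y) + H²(C) + H¹(Y) ⊗ H¹(C)`, and Tate's conjecture predicts
that the order of the pole of `L₂(Y × C, s)` at `s = 2` is the order for `Y`, plus one for the fibre, plus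
the rank of `Hom(Jac C, Pic⁰ Y)`; this is zero if no factor of `Jac C`, of dimension `≥ m / 2`, is a factor
of `Pic⁰ Y`.

Theorem: the size `log|L₂(Y × C, 2 + ε)| / log(1/ε)` differs from the size of `L₂(Y, 2 + ε)` plus one by at
most `b₁(Y) (ℓ - 1)^{1/2} / m + η`, for all `Y`, `ℓ` and all twists `d`: there is no exceptional set.  If the
orders `-r`, `-r₀` of the L-functions exist, then `|r - r₀ - 1| ≤ b₁(Y) (ℓ - 1)^{1/2} / m`, and `r = r₀ + 1` if
`b₁(Y)² (ℓ - 1) < m²`, in particular if `b₁(Y)² [K : ℚ]² < ℓ - 1`.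

The proof counts the points of the curve by Jacobi sums `J(χ^j, η)`, `η` the quadratic character,
and contains a proof of the theorem of Weil that the ideals of degree one of the field `ℚ(ζ_ℓ)` have Jacobi
sums which are the values of a Hecke character (the infinity type is a CM type; Stickelberger's theorem for
the ideals of degree one is deduced from a congruence for binomial coefficients), and the proof that
the sums of `|trace of H¹(C)|²` over the primes of `K` split in `K(ζ_ℓ)` are what one expects (the `ℓ - 1`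
conjugates of this Hecke character are different, by their infinity types).  The definitions are in
`Pool.Agent.L7h11.JS.Cdefs`, `Pool.Agent.N172.HS.Defs` (`Variety`), `Pool.Agent.W353.EF.Defs`
(`IsFrobenius`, `IsEulerSystem`, `LFun`, `size`) and `Pool.Agent.Y149.Ord` (`HasOrder`).
-/

set_option autoImplicit false

namespace Pool.Agent.Results.MP_1f4fc7_nt.ProductsWithJacobiSumCurves

open NumberField Complex Filter Topology IsDedekindDomain Polynomial
open Pool.Agent.N172.HS (Variety)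
open Pool.Agent.W353.EF (IsEulerSystem LFun size)
open Pool.Agent.Y149.Ord (HasOrder)
open Pool.Agent.L7h11.JS (IsL2Curve)

/-- The size of `L₂(Y × C, s)` at `s = 2` is the size of `L₂(Y, s)` plus one, up to
`b₁(Y) (ℓ - 1)^{1/2} / [K(ζ_ℓ) : K]`, and the same for the orders of the poles, if they exist; `A` and
`B` are the Euler factors of `L₂(Y, s)` and of `L₂(Y × C, s)`, `C : d y² = x ^ ℓ + 1`. -/
theorem result (K : Type) [Field K] [NumberField K] (Y : Variety K) (hY : 1 ≤ Y.dim) (ℓ : ℕ)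
    (hℓ : ℓ.Prime) (hodd : ℓ ≠ 2) (d : 𝓞 K) (hd : d ≠ 0) (A B : HeightOneSpectrum (𝓞 K) → ℂ[X])
    (hA : IsEulerSystem Y.eqs Y.dim 2 (Y.betti 2) A) (hB : IsL2Curve Y ℓ d B) :
    (∀ η : ℝ, 0 < η → ∀ᶠ ε : ℝ in 𝓝[>] 0, LFun B (((2 : ℕ) : ℂ) / 2 + 1 + ε) ≠ 0 ∧
      |size 2 B ε - size 2 A ε - 1| ≤
        Y.betti 1 * Real.sqrt (ℓ - 1) / Module.finrank K (CyclotomicField ℓ K) + η) ∧
    ∀ r r₀ : ℤ, HasOrder 2 B (-r) → HasOrder 2 A (-r₀) →
      |(r : ℝ) - r₀ - 1| ≤
        Y.betti 1 * Real.sqrt (ℓ - 1) / Module.finrank K (CyclotomicField ℓ K) ∧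
      (Y.betti 1 ^ 2 * (ℓ - 1) < Module.finrank K (CyclotomicField ℓ K) ^ 2 → r = r₀ + 1) ∧
      (Y.betti 1 ^ 2 * Module.finrank ℚ K ^ 2 < ℓ - 1 → r = r₀ + 1) := by
  haveI : Fact ℓ.Prime := ⟨hℓ⟩
  have ho : Odd ℓ := hℓ.odd_of_ne_two hodd
  refine ⟨fun η hη => (Pool.Agent.L7h11.JS.curve_size hY hB).1.and
    (Pool.Agent.L7h11.JS.final_size hY ho hd hA hB hη), fun r r₀ hr hr₀ => ⟨?_, fun h => ?_,
    fun h => ?_⟩⟩
  · exact Pool.Agent.L7h11.JS.final_order hY ho hd hA hB hr hr₀
  · exact Pool.Agent.L7h11.JS.final_order_eq hY ho hd hA hB hr hr₀ h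
  · exact Pool.Agent.L7h11.JS.final_order_eq' hY ho hd hA hB hr hr₀ h

end Pool.Agent.Results.MP_1f4fc7_nt.ProductsWithJacobiSumCurves
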