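import Mathlib
import Pool.Agent.L7h11.RS.Final

/-!
# `L₂(s)` of the surfaces which are random complete intersections in a fixed variety `Y`

Let `Y ⊆ ℙ^n` be a smooth projective variety over `ℚ` of dimension `D = 2m + r`, given by the forms `g a`, and
let `f k`, `k < r`, be linear systems of forms with integer coefficients.  For a vector `c` of integers let `X_c ⊆ Y` be
the common zeros of `Y` and of the `r` forms `F_k = ∑ i, c ⟨k, i⟩ f k i`: a variety of dimension `2m`, a surface for
`m = 1`.  By the weak Lefschetz theorem `H^{2m}(X_c)` contains `H^{2m}(Y)`, for `m = 1` the divisor classes of `Y` give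
divisor classes on `X_c`, and for a general `c` (theorems of Noether and Lefschetz) there are usually no others; the
question then predicts that `L₂(s, X_c) / L₂(s, Y)` has neither a pole nor a zero at `s = 2` for most `c`, and if the
linear systems have base loci, then every component of the suitable dimension gives one further class and one further pole.

The starting results `LinearSystems` and `NearTheWholeLine` are about one hypersurface in a projective space.  Here
`Y` is any variety, `r` is arbitrary, and the maps given by the systems need not separate points: it is enough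
that the pairs of points of `Y` with the same image, weighted in the base loci, are not too many; without base points the
maps are finite and this is automatic.  Result: in mean square over the members of height at most `H`, the supremum of
`| log |L(X_c, s)| - log |L(Y, s)| - e log |ζ(s - m)| |` over the whole rectangle `s = m + 1 + ε + iτ`,
`1 / log H ≤ ε ≤ 1`, `|τ| ≤ T`, is at most `(C (1 + T)) ^ (1/2)` with `C` independent of `H` and `T`.

The second part is the case of all the complete intersections of `r` forms of the same degree `d` in
`ℙ^{2m + r}`, where all the hypotheses are proved: `L(X_c, s)` behaves like `ζ(s - m)`.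

Proof.  The traces of the Frobenius on `H^{2m}(X_c)` and on `H^{2m}(Y)` differ by the deviation of the number of the
points of `X_c` modulo `p` from its mean over the family, up to `e p^m + O(p^{m - 1/2})` (Lefschetz formula, weak and
hard Lefschetz).  The mean square of this deviation is computed by the independence of the conditions at two points with
different images; the exceptional pairs are the pairs with the same image.  The rest is the majorant for Euler
products whose coefficients are functions of the reduction (`Pool/Agent/L7h11/RS/Abs.lean`), together with a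
discriminant for families of complete intersections, obtained by elimination over `ℤ` from one smooth complex
member (`Pool/Agent/L7h11/RS/Elim.lean`).
-/

set_option autoImplicit false

open Pool.Agent.Y722.HS Pool.Agent.Y722.LS Pool.Agent.L7h11.RS

namespace Pool.Agent.Results.MP_1f4fc7_nt.RandomSectionsOfAVariety

/-- **Random complete intersections in a fixed variety.** (1) `Y` of dimension `2 m + r` in `ℙ^n` and `r` linear systems
with a smooth complex member `X_{c₀}`, such that the number of the pairs of points of `Y` modulo `p` with the same image
(weighted in the base loci) is at most `M p^{2m + 2}` on the cones, and the mean number of the points of the members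
modulo `p` is `#Y(𝔽_p) / p^r + e p^m + O(p^{m - 1/2})`. (2) All the complete intersections of `r` forms of
degree `d` in `ℙ^{2m + r}`. -/
theorem result :
    (∀ (n s r m D p₀ b b₀ : ℕ) (ι : Fin r → Type) [∀ k, Fintype (ι k)] [∀ k, DecidableEq (ι k)]
      (g : Fin s → MvPolynomial (Fin (n + 1)) ℤ) (f : ∀ k, ι k → MvPolynomial (Fin (n + 1)) ℤ)
      (dg : Fin s → ℕ) (df : Fin r → ℕ), (∀ a, (g a).IsHomogeneous (dg a)) →
      (∀ k i, (f k i).IsHomogeneous (df k)) → D = 2 * m + r →
      ∀ (bet : ℕ → ℕ) (β : ℕ → ℕ → Multiset ℂ) (α₀ : ℕ → Fin b₀ → ℂ),
      IsCohomology g m D p₀ bet β α₀ →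
      ∀ c₀ : (Σ k, ι k) → ℤ, IsSmoothAt (eqs g f (fun i => (c₀ i : ℂ))) (n - 2 * m) →
      ∀ M : ℝ, (∀ (p : ℕ) [Fact p.Prime], p₀ ≤ p → pairs g f p ≤ M * (p : ℝ) ^ (2 * m + 2)) →
      ∀ e C₀ : ℝ, (∀ (p : ℕ) [Fact p.Prime], p₀ ≤ p →
        |(meanX g f p - coneY g p / (p : ℝ) ^ r) / ((p : ℝ) - 1) - e * (p : ℝ) ^ m| ≤
          C₀ * (p : ℝ) ^ ((m : ℝ) - 1 / 2)) →
      NearLine g f m p₀ β α₀ b e) ∧
    (∀ (r m d b : ℕ), 1 ≤ d →
      NearLine (n := 2 * m + r) (s := 0) (r := r) (ι := fun _ => Mon (2 * m + r) d) Fin.elim0
        (fun _ => mons (2 * m + r) d) m 0 projCoh (fun p (_ : Fin 1) => (p : ℂ) ^ m) b 0 ∧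
      ∀ ε τ : ℝ, 0 < ε → LP (fun p (_ : Fin 1) => (p : ℂ) ^ m) (m + 1 + ε + τ * Complex.I) =
        riemannZeta (1 + ε + τ * Complex.I)) := by
  exact ⟨fun n s r m D p₀ b b₀ ι _ _ g f dg df hg hf hD bet β α₀ hY c₀ hs M hM e C₀ hmean =>
    near g f dg df hg hf hD bet β α₀ hY c₀ hs M hM e C₀ hmean, fun r m d b hd =>
      ⟨near_space r m d b hd, fun ε τ hε => LP_proj m ε τ hε⟩⟩

end Pool.Agent.Results.MP_1f4fc7_nt.RandomSectionsOfAVariety
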