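import Mathlib
import Pool.Agent.L7h11.RS.CFinal

/-!
# `L₂(s)` of the products of a fixed variety and a random curve

Let `Y` be a smooth projective variety over `ℚ`, of any dimension, and let `Z_c`, `c` a vector of integers, be the
complete intersection curves of `r` members of linear systems of forms in a smooth projective variety `W ⊆ ℙ^n` of
dimension `r + 1`.  By Künneth `H²(Y × Z_c)` is the sum of `H²(Y)`, the line `H²(Z_c)` and `H¹(Y) ⊗ H¹(Z_c)`, and
`H¹(Z_c)` contains `H¹(W)`.  For a general `c` there are no homomorphisms from the Albanese variety of `Y` to the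
Jacobian of `Z_c` but those to the Albanese variety of `W`, so that by the question `L₂(s, Y × Z_c)` should have at
`s = 2` a pole of the order of `L₂(s, Y) L(H¹(Y) ⊗ H¹(W), s)` plus one, for most `c`.

Result: in mean square over the `c` of height at most `H`, the supremum of
`| log |L₂(s, Y × Z_c)| - log |L₂(s, Y)| - log |L(H¹(Y) ⊗ H¹(W), s)| - log |ζ(s - 1)| |` over the rectangle
`s = 2 + ε + iτ`, `1 / log H ≤ ε ≤ 1`, `|τ| ≤ T`, is at most `(C (1 + T)) ^ (1/2)`, `C` independent of `H` and `T`.
Nothing is assumed about the L-functions of `Y`.  The starting result `RandomCurveProducts` of this page is about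
products of plane curves all of which are random; here one factor is an arbitrary fixed variety.

The second part: all the complete intersection curves of `r` forms of the same degree `d` in `ℙ^{r + 1}` (`H¹(W) = 0`),
where the hypotheses on `W` are proved.

Proof.  The trace on `H¹(Y) ⊗ H¹(Z_c)` is the trace `t(p) = O(√p)` on `H¹(Y)` times `p + 1 - #Z_c(𝔽_p)`, and the
deviation of `#Z_c(𝔽_p)` from its mean `p - tr(H¹(W)) + O(1)` has mean square `O(p)` over the family, by the
independence of the conditions at points with different images.  So the Dirichlet polynomial of the quotient has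
coefficients of mean zero and mean square `O(1/p²)`, and the majorant of `Pool/Agent/L7h11/RS/Abs.lean` applies.
-/

set_option autoImplicit false

open Pool.Agent.Y722.HS Pool.Agent.Y722.LS Pool.Agent.L7h11.RS

namespace Pool.Agent.Results.MP_1f4fc7_nt.VarietyTimesRandomCurve

/-- **A fixed variety times a random curve.** `Y ⊆ ℙ^{nY}` has the dimension `DY ≥ 1`, the trace of the Frobenius on
`H¹(Y)` is the integer `t p`, and the eigenvalues on `H²(Y)` are `δ p j`. (1) Curves in `W ⊆ ℙ^n` of dimension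
`r + 1`, geometrically connected, one of them smooth, such that the number of the pairs of points of `W` modulo `p` with
the same image (weighted in the base loci) is at most `M p³` on the cones, and the mean number of the points of the
curves modulo `p` is `#W(𝔽_p) / p^r + O(1)`. (2) All the complete intersections of `r` forms of degree `d` in
`ℙ^{1 + r}`; here `H¹(W) = 0`, and the corresponding L-function is `1`. -/
theorem result (nY sY DY p₀ b b₂ : ℕ) (gY : Fin sY → MvPolynomial (Fin (nY + 1)) ℤ)
    (betY : ℕ → ℕ) (βY : ℕ → ℕ → Multiset ℂ) (δ : ℕ → Fin b₂ → ℂ) (hDY : 1 ≤ DY)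
    (hY : IsCohomology gY 1 DY p₀ betY βY δ)
    (t : ℕ → ℤ) (ht : ∀ p : ℕ, p.Prime → p₀ ≤ p → (βY p 1).sum = t p) :
    (∀ (n s r b' : ℕ) (ι : Fin r → Type) [∀ k, Fintype (ι k)] [∀ k, DecidableEq (ι k)]
      (g : Fin s → MvPolynomial (Fin (n + 1)) ℤ) (f : ∀ k, ι k → MvPolynomial (Fin (n + 1)) ℤ)
      (dg : Fin s → ℕ) (df : Fin r → ℕ), (∀ a, (g a).IsHomogeneous (dg a)) →
      (∀ k i, (f k i).IsHomogeneous (df k)) →
      ∀ (bet : ℕ → ℕ) (β : ℕ → ℕ → Multiset ℂ),
      IsCohomology g 0 (r + 1) p₀ bet β (fun _ (_ : Fin 1) => 1) →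
      ∀ ω : ℕ → Fin b' → ℂ, IsTensor p₀ βY β ω →
      ∀ c₀ : (Σ k, ι k) → ℤ, IsSmoothAt (eqs g f (fun i => (c₀ i : ℂ))) (n - 1) →
      ∀ M : ℝ, (∀ (p : ℕ) [Fact p.Prime], p₀ ≤ p → pairs g f p ≤ M * (p : ℝ) ^ 3) →
      ∀ C₀ : ℝ, (∀ (p : ℕ) [Fact p.Prime], p₀ ≤ p →
        |(meanX g f p - coneY g p / (p : ℝ) ^ r) / ((p : ℝ) - 1)| ≤ C₀) →
      NearProduct g f p₀ t δ ω b) ∧
    (∀ (r d : ℕ), 1 ≤ d →
      NearProduct (n := 1 + r) (s := 0) (r := r) (ι := fun _ => Mon (1 + r) d) Fin.elim0
        (fun _ => mons (1 + r) d) p₀ t δ (fun _ (j : Fin 0) => j.elim0) b ∧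
      ∀ s : ℂ, LP (fun _ (j : Fin 0) => j.elim0) s = 1) :=
  ⟨fun n s r b' ι _ _ g f dg df hg hf bet β hW ω hω c₀ hs M hM C₀ hmean =>
    near_product gY g f dg df hg hf betY βY δ hDY hY t ht bet β hW ω hω c₀ hs M hM C₀ hmean,
    fun r d hd => ⟨near_product_space gY betY βY δ hDY hY t ht r d hd, LP_empty⟩⟩

end Pool.Agent.Results.MP_1f4fc7_nt.VarietyTimesRandomCurve
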